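import Pool.Agent.U642.DU.Fq

set_option autoImplicit false

/-!
# Large least primes in the classes of `k` arbitrary affine functions at the sum of two arbitrary dense sets

Let `q` be a large prime, `V` any finite vector space over `F_q` (of any dimension), `A` and `B` ANY two
subsets of `V` with at least `|V| / (log q) ^ K` elements each, and `g₁, …, g_k` any nonconstant affine
functions from `V` to `F_q`.  Then there are `a ∈ A` and `b ∈ B` such that for ALL `i ≤ k` the least
prime in the residue class `g_i (a + b)` modulo `q` is larger than `c q log q log log q`, where `c > 0`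
depends only on `k` and `K`, but neither on the dimension nor on the functions and sets.

This exceeds the published lower bound `c q log q log₂ q log₄ q / log₃ q` for the largest of all least
primes modulo `q` (Li, Pratt and Shakan 2017), for `k` classes at once and inside arbitrary dense sets.
Examples: `V = F_q`: the classes `u_i (a + b) + w_i` with arbitrary `u_i ≠ 0` and `w_i` modulo `q`;
`V = F_q ^ 2` and `A = A₁ × A₂`, `B = B₁ × B₂`: the classes `a₁ + b₁`, `a₂ + b₂`,
`a₁ + a₂ + b₁ + b₂`, … for four arbitrary dense sets.  As the sets are arbitrary, `a + b` can be replaced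
by `α a + β b` for nonzero `α, β` in `F_q` (pass to `α A` and `β B`).

Method.
(1) By Dirichlet's box principle there is a direction `s` in `V` such that the values at `s` of the
linear parts of all the `g_i` have nonzero representatives of absolute value at most
`q ^ (1 - 1 / (k + 1))`.  Both sets are dense on translates of the progression `s, 2 s, …, T s`, `T` about
`q ^ (1 / (k + 1)) / 2`, on which the `g_i` are integral affine functions of `t + t'` with values in
`(- q, 2 q)` (`DU/Fq`).
(2) For every class modulo the product of the primes up to `y = log T / 10` the upper bound sieve for the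
integers `g_i + j q`, `|j| ≤ L`, leaves at most `50 k L / log y` pairs `(i, j)` (`DU/Sel`, `DU/Prog`).
(3) These are covered with the quadratic covering sieve of the starting library (H256R2/SC, helper256),
without the primes dividing the determinants of the affine functions `r_i x + w_i + j q` (`DU/SoftG`),
and the positivity of its weight over pairs of elements of two arbitrary sets of density
`(log T) ^ (-2 K)` follows from a bound for all nonzero Fourier coefficients and the large sieve.
-/

namespace Pool.Agent.Results.MP_5b0a7e_nt.AffineImagesOfDenseSets

open Pool.Agent.U642.DU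

/-- For all `k`, `K` there is `c > 0` such that for all large primes `q`, all finite vector spaces `V`
over `F_q`, all `A, B ⊆ V` with at least `|V| / (log q) ^ K` elements and all nonconstant affine functions
`g_i = λ_i + w_i` (`i < k`) from `V` to `F_q` there are `a ∈ A`, `b ∈ B` such that for all `i` all the
primes in the class `g_i (a + b)` modulo `q` are larger than `c q log q log log q`. -/
theorem result (k K : ℕ) : ∃ c : ℝ, 0 < c ∧ ∃ q₀ : ℕ, ∀ q : ℕ, q₀ ≤ q → ∀ [Fact q.Prime],
    ∀ (V : Type) [AddCommGroup V] [Module (ZMod q) V] [Fintype V], ∀ A B : Finset V,
    (Fintype.card V : ℝ) / (Real.log q) ^ K ≤ A.card →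
    (Fintype.card V : ℝ) / (Real.log q) ^ K ≤ B.card →
    ∀ (lam : Fin k → (V →ₗ[ZMod q] ZMod q)) (w : Fin k → ZMod q), (∀ i, lam i ≠ 0) →
    ∃ a ∈ A, ∃ b ∈ B, ∀ i, ∀ p : ℕ, p.Prime → (p : ZMod q) = lam i (a + b) + w i →
      c * (q * (Real.log q * Real.log (Real.log q))) < p :=
  mainV k K

end Pool.Agent.Results.MP_5b0a7e_nt.AffineImagesOfDenseSets
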