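import Pool.Agent.U365.MOD.L
import Pool.Agent.U365.AQG.B

/-!
# The least primes in almost all classes, for all the multiples of aliquot sums, cototients and similar moduli

Let `s(m) = σ(m) - m` be the sum of the proper divisors of `m`. For almost all even integers `m` with a prime factor larger
than `m^(1/3 + ρ)`, hence for at least two thirds of all even `m`, the moduli `n = s(m)` and `n = m - φ(m)` and ALL their
multiples `a = t n`, `t ≤ (log n)^K`, have the property `Good` of the starting file `PalindromicModuli`: for all real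
`x = lam φ(a) log a` with `a ≤ x ≤ a (log a)^K` the least prime `p(a, b)` is at most `x` for all reduced classes `b` with at
most `(1 + ε) φ(a) / (1 + lam)` exceptions (for `lam = C log a`: `p(a, b) ≤ C φ(a) (log a)²` with fewer than
`(1 + ε) φ(a) / (C log a)` exceptions), and `|ψ(x; a, b) - x / φ(a)| < η x / φ(a)` with at most `(1 + ε) φ(a) / (η² lam)`
exceptions. The same is true for the moduli `n = α m + β f(m)`, where `f` is any positive multiplicative function of moderate
growth with `f(p) = p + c`, `c ≠ 0`, for all large primes `p`, as long as `n` is positive and not very small. These functions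
are not multiplicative, nothing is known on the distribution of their values in the residue classes to large moduli, and their
values are taken with large multiplicities.

Proof. Write `m = k p` with the large prime factor `p`. Then `n = A p + B` with `A = α k + β f(k)` and `B = β c f(k)`, and
`A` is at most `x^(2/3 - ρ)`, up to a power of the logarithm. So `t n` runs through the class of `t B` modulo `t A`, and
Hooley's asymptotic formula for the variance for almost all moduli in a class (`MP_5d318d_nt.ModuliInClasses`, starting file)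
is applied for every `k` and every `t`; the least primes are treated as in `TH894/PV`, `R501/LP` (starting files).
-/

set_option autoImplicit false

namespace Pool.Agent.Results.MP_5b0a7e_nt.AliquotModuli

open Finset Filter Topology
open Pool.Agent.U365.AQG (Moderate LargePrime AlmostAll aliquot)

open Classical in
/-- The number of the `b` with `0 ≤ b < a` and `gcd(a, b) = 1` for which no prime `p ≤ x` is congruent to `b` modulo
`a`; for `a ≥ 2` this is the number of the reduced classes with `p(a, b) > x`. -/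
noncomputable def late (a : ℕ) (x : ℝ) : ℕ :=
  ((range a).filter (fun b => Nat.Coprime b a ∧ ∀ p : ℕ, p.Prime → (p : ℝ) ≤ x → ¬ p % a = b)).card

/-- `ψ(x; a, b) = ∑_{n ≤ x, n ≡ b mod a} Λ(n)` for `0 ≤ b < a` -/
noncomputable def psiAP (x : ℝ) (a b : ℕ) : ℝ :=
  ∑ n ∈ (Icc 1 ⌊x⌋₊).filter (fun n => n % a = b), ArithmeticFunction.vonMangoldt n

open Classical in
/-- The number of the `b` with `0 ≤ b < a` and `gcd(a, b) = 1` with `|ψ(x; a, b) - x / φ(a)| ≥ η x / φ(a)`. -/
noncomputable def off (a : ℕ) (x η : ℝ) : ℕ :=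
  ((range a).filter (fun b => Nat.Coprime b a ∧ η * (x / (Nat.totient a : ℝ)) ≤
    |psiAP x a b - x / (Nat.totient a : ℝ)|)).card

/-- For all real `x = lam φ(a) log a` with `a ≤ x ≤ a (log a) ^ κ`: the least prime `p(a, b)` is larger than `x` for at
most `(1 + ε) φ(a) / (1 + lam)` of the reduced classes `b`, and for all `η > 0` at most `(1 + ε) φ(a) / (η² lam)` of the
reduced classes `b` have `|ψ(x; a, b) - x / φ(a)| ≥ η x / φ(a)`. -/
def Good (ε : ℝ) (κ a : ℕ) : Prop :=
  ∀ x : ℝ, (a : ℝ) ≤ x → x ≤ a * Real.log a ^ κ →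
    (late a x : ℝ) * (1 + x / (Nat.totient a * Real.log a)) ≤ (1 + ε) * Nat.totient a ∧
    ∀ η : ℝ, 0 < η → (off a x η : ℝ) * (η ^ 2 * (x / (Nat.totient a * Real.log a))) ≤ (1 + ε) * Nat.totient a

/-- The modulus `n` is at least `3`, and ALL its multiples `a = t n`, `1 ≤ t ≤ (log n)^K`, satisfy `Good ε K a`. -/
def Multiples (ε : ℝ) (K n : ℕ) : Prop :=
  3 ≤ n ∧ ∀ t : ℕ, 1 ≤ t → (t : ℝ) ≤ Real.log n ^ K → Good ε K (t * n)

theorem both (ε : ℝ) (hε : 0 < ε) (hε1 : ε ≤ 1) (K : ℕ) (ρ : ℝ) (hρ : 0 < ρ) :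
    AlmostAll (fun m => Even m → LargePrime (1 / 3 + ρ) m →
      Multiples ε K (aliquot m) ∧ Multiples ε K (m - Nat.totient m)) := by
  have h := Pool.Agent.U365.AQG.both' (2 / 3) (by norm_num) (by norm_num) _ (Pool.Agent.U365.MOD.ebt_LP ε hε hε1 K) 3 ρ hρ
  rw [show (1 - 2 / 3 : ℝ) = 1 / 3 by norm_num] at h
  exact h

open Classical in
/-- **The least primes in almost all classes modulo aliquot sums, cototients and similar numbers.** Let `f` be a positive
multiplicative function of moderate growth with `f p = p + c`, `c ≠ 0`, for all large primes `p`, let `α`, `β` be nonzero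
integers, `ρ > 0` and `0 < ε ≤ 1`. For almost all `m` with a prime factor `≥ m^(1/3 + ρ)` and
`n = α m + β f(m) ≥ m / (log m)^C` ALL the multiples `a = t n`, `1 ≤ t ≤ (log n)^K`, satisfy `Good ε K a`. Euler's function
and the sum of the divisors are examples. For almost all even `m` with a prime factor `≥ m^(1/3 + ρ)` this holds for the sum
`s(m)` of the proper divisors and for the cototient `m - φ(m)`; this is so for a proportion of at least `2/3` of the even
integers `m`. -/
theorem result :
    (∀ (f : ℕ → ℕ) (c α β : ℤ) (C K : ℕ) (ρ ε : ℝ), Moderate f c → c ≠ 0 → α ≠ 0 → β ≠ 0 → 0 < ρ → 0 < ε → ε ≤ 1 →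
      AlmostAll (fun m => LargePrime (1 / 3 + ρ) m → (m : ℝ) / Real.log m ^ C ≤ ((α * m + β * f m : ℤ) : ℝ) →
        ∀ n : ℕ, (n : ℤ) = α * m + β * f m → ∀ t : ℕ, 1 ≤ t → (t : ℝ) ≤ Real.log n ^ K → Good ε K (t * n))) ∧
    (Moderate Nat.totient (-1) ∧ Moderate (fun m => ∑ d ∈ m.divisors, d) 1) ∧
    (∀ (K : ℕ) (ρ ε : ℝ), 0 < ρ → 0 < ε → ε ≤ 1 → AlmostAll (fun m => Even m → LargePrime (1 / 3 + ρ) m →
      Multiples ε K (aliquot m) ∧ Multiples ε K (m - Nat.totient m))) ∧
    ∀ (K : ℕ) (ε δ : ℝ), 0 < ε → ε ≤ 1 → δ < 2 / 3 → ∃ N₀ : ℕ, ∀ N : ℕ, N₀ ≤ N → δ * (N / 2) ≤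
      (((Icc 1 N).filter (fun m => Even m ∧ Multiples ε K (aliquot m) ∧ Multiples ε K (m - Nat.totient m))).card : ℝ) := by
  refine ⟨fun f c α β C K ρ ε hf hc hα hβ hρ hε hε1 => ?_,
    ⟨Pool.Agent.U365.AQG.moderate_totient, Pool.Agent.U365.AQG.moderate_sigma⟩,
    fun K ρ ε hρ hε hε1 => both ε hε hε1 K ρ hρ, fun K ε δ hε hε1 hδ => ?_⟩
  · have h := Pool.Agent.U365.AQG.general' (2 / 3) (by norm_num) (by norm_num) _
      (Pool.Agent.U365.MOD.ebt_LP ε hε hε1 K) f c α β C ρ hf hc hα hβ hρ
    rw [show (1 - 2 / 3 : ℝ) = 1 / 3 by norm_num] at h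
    refine Pool.Agent.U365.AQG.almostAll_and h h 0 (fun m _ h1 _ hl hg n hn => ?_)
    have h2 := h1 hl hg
    rw [← hn, Int.toNat_natCast] at h2
    exact h2
  · obtain ⟨N₀, h⟩ := Pool.Agent.U365.AQG.density (2 / 3) (by norm_num)
      (fun m => Multiples ε K (aliquot m) ∧ Multiples ε K (m - Nat.totient m)) (fun η hη => by
        rw [show (1 - 2 / 3 : ℝ) = 1 / 3 by norm_num]
        exact both ε hε hε1 K η hη) δ hδ
    exact ⟨N₀, fun N hN => (h N hN).trans (Nat.cast_le.2 (Pool.Agent.U365.AQG.card_mono' (fun m hm => hm)))⟩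

end Pool.Agent.Results.MP_5b0a7e_nt.AliquotModuli
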