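import Pool.Agent.R490.P3m

/-!
# Almost primes below `C φ(q) log q` in almost all residue classes of every modulus

Q1 asks for a prime `p ≤ C φ(a) (log a)²` in every reduced class modulo `a`. Here the model with products of at most `R` primes is
considered (`R = 3` for the set of all classes). For EVERY large modulus `q` (no exceptional moduli) and for almost all reduced classes
`b` modulo `q` there are products of at most three primes `N ≡ b (mod q)` with `N ≤ C φ(q) log q`: for every `ε > 0` there are constants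
`c, Λ > 0` such that for `λ ≥ Λ` and `q ≥ q₀(λ)` all but at most `ε φ(q)` of the reduced classes contain at least `c λ` integers
`N ≤ λ φ(q) log q` which are products of at most three primes, all of them `≥ q ^ (1 / 9)`. For these integers (whose density is of
order `1 / log q`) the bound `C φ(q) log q` has the right order of magnitude, since by a simple sieve bound for a small `C` most of the
classes do not contain any of them; also `c λ` has the right order.

More generally this holds for the classes `b` in all intervals `(Z, Z + L]` with `q ^ θ ≤ L ≤ q`, `0 < θ ≤ 1`, with products of at most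
`R` primes `≥ q ^ (θ / 9)`, if `R > 1 / 8 + 25 / (12 θ)`: for instance three primes for `θ > 0.725` and four for `θ > 0.538`.

The theorem is the main theorem of the starting library `Pool.Agent.R490.P3a` - `P3m` (a weighted sieve with the level of distribution in the
mean over the classes), which no hand-in states. Known before, for almost all classes of the modulus `q`: `P₃` below `q (log q) ^ 70`
(Motohashi) and `P₂` below `q (log q) ^ 5` (Mikawa).
-/

set_option autoImplicit false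

namespace Pool.Agent.Results.MP_5b0a7e_nt.AlmostPrimesEveryModulus

/-- The integers `2 ≤ N ≤ X` with `N ≡ b (mod q)` which are products of at most `R` primes, all of them `≥ w`. -/
def almostPrimes (q R b : ℕ) (w X : ℝ) : Set ℕ :=
  {N : ℕ | 2 ≤ N ∧ (N : ℝ) ≤ X ∧ N ≡ b [MOD q] ∧ N.primeFactorsList.length ≤ R ∧ ∀ p : ℕ, p.Prime → p ∣ N → w ≤ p}

lemma count_eq (q R b : ℕ) (w X : ℝ) (hX : 0 ≤ X) :
    Pool.Agent.R490.P3m.count q R b w X = (almostPrimes q R b w X).ncard := by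
  classical
  unfold Pool.Agent.R490.P3m.count
  rw [← Set.ncard_coe_finset]
  congr 1
  ext N
  unfold almostPrimes
  rw [Finset.mem_coe, Finset.mem_filter, Finset.mem_Icc, Set.mem_setOf_eq, Nat.le_floor_iff hX]
  tauto

/-- **Theorem.** Part 1: all classes, `R = 3`. Part 2: short intervals of classes. -/
theorem result :
    (∀ ε : ℝ, 0 < ε → ∃ c Λ : ℝ, 0 < c ∧ 0 < Λ ∧ ∀ lam : ℝ, Λ ≤ lam → ∃ q₀ : ℕ, ∀ q : ℕ, q₀ ≤ q →
      ({b : ℕ | 1 ≤ b ∧ b ≤ q ∧ b.Coprime q ∧
        ((almostPrimes q 3 b ((q : ℝ) ^ (1 / 9 : ℝ)) (lam * (q.totient * Real.log q))).ncard : ℝ) < c * lam}.ncard : ℝ) ≤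
        ε * q.totient) ∧
    ∀ (θ ε : ℝ) (R : ℕ), 0 < θ → θ ≤ 1 → 1 / 8 + 25 / (12 * θ) < R → 0 < ε →
      ∃ c Λ : ℝ, 0 < c ∧ 0 < Λ ∧ ∀ lam : ℝ, Λ ≤ lam → ∃ q₀ : ℕ, ∀ q : ℕ, q₀ ≤ q → ∀ Z L : ℕ, (q : ℝ) ^ θ ≤ L → Z + L ≤ q →
        ({b : ℕ | Z < b ∧ b ≤ Z + L ∧ b.Coprime q ∧
          ((almostPrimes q R b ((q : ℝ) ^ (θ / 9)) (lam * (q.totient * Real.log q))).ncard : ℝ) < c * lam}.ncard : ℝ) ≤
          ε * (L * ((q.totient : ℝ) / q)) := by
  classical
  have main : ∀ (θ ε : ℝ) (R : ℕ), 0 < θ → θ ≤ 1 → 1 / 8 + 25 / (12 * θ) < R → 0 < ε →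
      ∃ c Λ : ℝ, 0 < c ∧ 0 < Λ ∧ ∀ lam : ℝ, Λ ≤ lam → ∃ q₀ : ℕ, ∀ q : ℕ, q₀ ≤ q → ∀ Z L : ℕ, (q : ℝ) ^ θ ≤ L → Z + L ≤ q →
        ({b : ℕ | Z < b ∧ b ≤ Z + L ∧ b.Coprime q ∧
          ((almostPrimes q R b ((q : ℝ) ^ (θ / 9)) (lam * (q.totient * Real.log q))).ncard : ℝ) < c * lam}.ncard : ℝ) ≤
          ε * (L * ((q.totient : ℝ) / q)) := by
    intro θ ε R hθ hθ1 hR hε
    obtain ⟨c, Λ, hc, hΛ, h⟩ := Pool.Agent.R490.P3m.final θ ε R hθ hθ1 hR hε
    refine ⟨c, Λ, hc, hΛ, fun lam hlam => ?_⟩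
    obtain ⟨q₀, hq₀⟩ := Filter.eventually_atTop.1 (h lam hlam)
    refine ⟨max q₀ 1, fun q hq Z L hL hZ => ?_⟩
    have hq1 : 1 ≤ q := (le_max_right _ _).trans hq
    have h1 := hq₀ q ((le_max_left _ _).trans hq) Z L hL hZ
    have hX : 0 ≤ lam * (q.totient * Real.log q) :=
      mul_nonneg (hΛ.le.trans hlam) (mul_nonneg (Nat.cast_nonneg _) (Real.log_natCast_nonneg q))
    refine le_trans (le_of_eq ?_) h1
    rw [← Set.ncard_coe_finset]
    congr 2
    ext b
    rw [Finset.mem_coe, Finset.mem_filter, Finset.mem_Ioc, Set.mem_setOf_eq, count_eq q R b _ _ hX]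
    tauto
  refine ⟨fun ε hε => ?_, main⟩
  obtain ⟨c, Λ, hc, hΛ, h⟩ := main 1 ε 3 one_pos le_rfl (by norm_num) hε
  refine ⟨c, Λ, hc, hΛ, fun lam hlam => ?_⟩
  obtain ⟨q₀, hq₀⟩ := h lam hlam
  refine ⟨max q₀ 1, fun q hq => ?_⟩
  have hq1 : 1 ≤ q := (le_max_right _ _).trans hq
  have h1 := hq₀ q ((le_max_left _ _).trans hq) 0 q (by rw [Real.rpow_one]) (by omega)
  have hq0 : (q : ℝ) ≠ 0 := by
    have : (1 : ℝ) ≤ q := by exact_mod_cast hq1
    linarith
  have e : ε * ((q : ℝ) * ((q.totient : ℝ) / q)) = ε * q.totient := by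
    field_simp
  rw [e, zero_add] at h1
  exact h1

end Pool.Agent.Results.MP_5b0a7e_nt.AlmostPrimesEveryModulus
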