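import Pool.Agent.TH935.HM5
import Pool.Agent.U471.RP.LogNear2

/-!
# The least primes in almost all residue classes, for all the moduli near almost all values of real polynomials

Let `f` be a real polynomial of degree at most `d` whose coefficient of `t ^ d` lies between `(log N) ^ (-C)` and
`(log N) ^ C`, with `|f(m)| ≤ N / 2` for `m = 1, …, x`, where `(log N) ^ C x ^ d ≥ N`; the other coefficients are arbitrary.
For all but a proportion `(log N) ^ (-U)` of the `m ≤ x`, ALL the moduli `a ≥ N / (log N) ^ κ` with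
`|a - f(m)| ≤ (log N) ^ W` are such that for all `1 ≤ lam ≤ (log a) ^ κ` the least prime `p(a, b)` is at most
`lam φ(a) log a` for all but `(1 + ε) φ(a) / lam` of the reduced classes `b` (for `lam = C₁ log a` this is the bound
`C₁ φ(a) (log a)²` of the problem, with at most `(1 + ε) φ(a) / (C₁ log a)` exceptional classes), and that the number of
primes up to `lam φ(a) log a` is the expected one for almost all classes. The theorem is uniform in `f`.

Proof: an inverse theorem for Weyl sums (`Pool.Agent.H373R2.NB.IW_all`) shows that the integers near the values have, up to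
powers of `log N`, the least possible additive energy of some order (`Pool.Agent.U471.RP.energy_real`); then the theorem of
the starting files on families of moduli of small energy (`Pool.Agent.TH935.HM.lp_fam`) is applied for every distance of the modulus
from the integer part of `f(m)` (`Pool.Agent.U471.RP.log_near_half`).
-/

set_option autoImplicit false

namespace Pool.Agent.Results.MP_5b0a7e_nt.RealPolynomialModuli

open Finset Polynomial

open Classical in
/-- The number of the `b` with `0 ≤ b < a` and `gcd(a, b) = 1` for which no prime `p ≤ y` is congruent to `b` modulo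
`a`; for `a ≥ 2` this is the number of the reduced classes with `p(a, b) > y`. -/
noncomputable def late (a : ℕ) (y : ℝ) : ℕ :=
  ((range a).filter (fun b => Nat.Coprime b a ∧ ∀ p : ℕ, p.Prime → (p : ℝ) ≤ y → ¬ p % a = b)).card

/-- `ψ(y; a, b) = ∑_{n ≤ y, n ≡ b mod a} Λ(n)` for `0 ≤ b < a` -/
noncomputable def psiAP (y : ℝ) (a b : ℕ) : ℝ :=
  ∑ n ∈ (Icc 1 ⌊y⌋₊).filter (fun n => n % a = b), ArithmeticFunction.vonMangoldt n

open Classical in
/-- The number of the `b` with `0 ≤ b < a` and `gcd(a, b) = 1` with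
`|ψ(lam φ(a) log a; a, b) - lam log a| ≥ η lam log a`. -/
noncomputable def off (a : ℕ) (lam η : ℝ) : ℕ :=
  ((range a).filter (fun b => Nat.Coprime b a ∧ η * (lam * Real.log a) ≤
    |psiAP (lam * (Nat.totient a * Real.log a)) a b - lam * Real.log a|)).card

/-- For all real `1 ≤ lam ≤ (log a) ^ κ`: the least prime `p(a, b)` is larger than `lam φ(a) log a` for at most
`(1 + ε) φ(a) / lam` of the reduced classes `b`, and for all `η > 0` at most `(1 + ε) φ(a) / (η² lam)` of the reduced classes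
`b` have `|ψ(lam φ(a) log a; a, b) - lam log a| ≥ η lam log a`. -/
def Good (ε : ℝ) (κ a : ℕ) : Prop :=
  ∀ lam : ℝ, 1 ≤ lam → lam ≤ Real.log a ^ κ →
    (late a (lam * (Nat.totient a * Real.log a)) : ℝ) ≤ (1 + ε) * Nat.totient a / lam ∧
    ∀ η : ℝ, 0 < η → (off a lam η : ℝ) ≤ (1 + ε) * Nat.totient a / (lam * η ^ 2)

/-- The real polynomials `f` of degree at most `d`, with `(log N) ^ (-C) ≤ f_d ≤ (log N) ^ C` for the coefficient `f_d`
of `t ^ d`, and with `|f(m)| ≤ N / 2` for `m = 1, …, x`, where `(log N) ^ C x ^ d ≥ N`. -/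
structure Normal (d C N x : ℕ) (f : ℝ[X]) : Prop where
  degree : f.natDegree ≤ d
  lower : 1 / Real.log N ^ C ≤ f.coeff d
  upper : f.coeff d ≤ Real.log N ^ C
  length : (N : ℝ) ≤ Real.log N ^ C * (x : ℝ) ^ d
  values : ∀ m ∈ Icc 1 x, |f.eval (m : ℝ)| ≤ N / 2

open Classical in
/-- The number of the `m ≤ x` such that some modulus `a ≥ N / (log N) ^ κ` with `|a - f(m)| ≤ (log N) ^ W` does not have the
property `Good`. -/
noncomputable def exceptions (ε : ℝ) (κ W N x : ℕ) (f : ℝ[X]) : ℕ :=
  ((Icc 1 x).filter (fun m : ℕ => ∃ a : ℕ, 0 < a ∧ (N : ℝ) ≤ a * Real.log N ^ κ ∧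
    |(a : ℝ) - f.eval (m : ℝ)| ≤ Real.log N ^ W ∧ ¬ Good ε κ a)).card

lemma good_iff (ε : ℝ) (κ a : ℕ) : Good ε κ a ↔ Pool.Agent.TH935.HM.Lp ε κ a a := Iff.rfl

/-- **The least primes in almost all classes for all the moduli near the values of real polynomials.** Let `d ≥ 1`, `C`,
`κ`, `U`, `W` and `0 < ε ≤ 1` be fixed and let `N` be large. For all `x` and ALL real polynomials `f` with
`Normal d C N x f`: for all but at most `x / log ^ U N` of the `m ≤ x`, ALL the moduli `a ≥ N / (log N) ^ κ` with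
`|a - f(m)| ≤ (log N) ^ W` have the property `Good`: for all real `1 ≤ lam ≤ (log a) ^ κ` one has
`p(a, b) ≤ lam φ(a) log a` for all reduced classes `b` with at most `(1 + ε) φ(a) / lam` exceptions, and for all `η > 0` one
has `|ψ(lam φ(a) log a; a, b) - lam log a| < η lam log a` with at most `(1 + ε) φ(a) / (η² lam)` exceptions. -/
theorem result (d : ℕ) (hd : 1 ≤ d) (C κ U W : ℕ) (ε : ℝ) (hε : 0 < ε) (hε1 : ε ≤ 1) :
    ∃ N₀ : ℕ, ∀ N : ℕ, N₀ ≤ N → ∀ (x : ℕ) (f : ℝ[X]), Normal d C N x f →
      (exceptions ε κ W N x f : ℝ) ≤ x / Real.log N ^ U := by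
  classical
  obtain ⟨p, hp, hnear⟩ := Pool.Agent.U471.RP.log_near_half d hd
  obtain ⟨N₁, h1⟩ := Pool.Agent.TH935.HM.lp_fam p (6 * C + 2 * W + 1) κ (U + W + 1) ε hε hε1
  obtain ⟨N₀, h0⟩ := hnear C W U (Θ := Unit) (fun _ _ => True)
    (fun N _ b => 0 < b ∧ (N : ℝ) ≤ b.toNat * Real.log N ^ κ ∧ ¬ Good ε κ b.toNat) N₁
    (fun N hN _ _ x s hs hE S hSx hS => h1 N hN x s hs hE S hSx fun m hm => by
      obtain ⟨h2, h3, h4⟩ := hS m hm
      exact ⟨h2, h3, fun h5 => h4 ((good_iff ε κ _).2 h5)⟩)
  refine ⟨N₀, fun N hN x f hf => ?_⟩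
  unfold exceptions
  refine h0 N hN () trivial x f ⟨hf.degree, hf.lower, hf.upper, hf.length, hf.values⟩ _ (filter_subset _ _) ?_
  intro m hm
  rw [mem_filter] at hm
  obtain ⟨_, Q, hQ0, hQ1, hQ2, hQ3⟩ := hm
  refine ⟨(Q : ℤ), by exact_mod_cast hQ2, by exact_mod_cast hQ0, ?_, ?_⟩
  · rw [Int.toNat_natCast]; exact hQ1
  · rw [Int.toNat_natCast]; exact hQ3

end Pool.Agent.Results.MP_5b0a7e_nt.RealPolynomialModuli
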